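import Pool.Agent.U337.EM.Stm

set_option autoImplicit false

/-!
# Package DT of project EM: determinants of a family of matrices stable under a connection
-/

open Polynomial

namespace Pool.Agent.U451.EM

/-- values at all natural numbers divisible by `(t - t₀)^k`: then all coefficients are -/
theorem coeff_dvd {F : Type} [Field F] [CharZero F] (t₀ : F) :
    ∀ (k : ℕ) (p : Polynomial (Polynomial F)),
      (∀ n : ℕ, (X - C t₀) ^ k ∣ p.eval (n : Polynomial F)) → ∀ i, (X - C t₀) ^ k ∣ p.coeff i := by
  intro k
  induction k with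
  | zero => intro p _ i; simp
  | succ k ih =>
    intro p hp
    have hev : ∀ n : ℕ, (p.map (evalRingHom t₀)).eval (n : F) = 0 := by
      intro n
      have h1 : (p.map (evalRingHom t₀)).eval (n : F) = evalRingHom t₀ (p.eval (n : Polynomial F)) := by
        rw [Polynomial.eval_natCast_map]
      rw [h1]
      have h2 : (X - C t₀) ∣ p.eval (n : Polynomial F) := (dvd_pow_self _ (Nat.succ_ne_zero k)).trans (hp n)
      simpa [Polynomial.IsRoot] using (Polynomial.dvd_iff_isRoot.1 h2)
    have hz : p.map (evalRingHom t₀) = 0 := by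
      apply Polynomial.eq_zero_of_infinite_isRoot
      refine Set.Infinite.mono (s := Set.range (fun n : ℕ => (n : F))) ?_ ?_
      · rintro _ ⟨n, rfl⟩
        exact hev n
      · exact Set.infinite_range_of_injective Nat.cast_injective
    have hc : ∀ i, (X - C t₀) ∣ p.coeff i := by
      intro i
      rw [Polynomial.dvd_iff_isRoot]
      have h := congrArg (fun q => Polynomial.coeff q i) hz
      simpa [Polynomial.coeff_map, Polynomial.IsRoot] using h
    obtain ⟨q, hq⟩ := (Polynomial.C_dvd_iff_dvd_coeff (X - C t₀ : Polynomial F) p).2 hc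
    have hne : (X - C t₀ : Polynomial F) ≠ 0 := Polynomial.X_sub_C_ne_zero t₀
    have hqv : ∀ n : ℕ, (X - C t₀) ^ k ∣ q.eval (n : Polynomial F) := by
      intro n
      have h := hp n
      rw [hq, Polynomial.eval_mul, Polynomial.eval_C, pow_succ'] at h
      exact (mul_dvd_mul_iff_left hne).1 h
    intro i
    rw [hq, Polynomial.coeff_C_mul, pow_succ']
    exact mul_dvd_mul_left _ (ih q hqv i)

/-- `a ↦ a + ε a'` -/
noncomputable def phi (F : Type) [Field F] : Polynomial F →+* DualNumber (Polynomial F) where
  toFun a := TrivSqZeroExt.inl a + TrivSqZeroExt.inr (derivative a)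
  map_one' := by
    ext <;> simp
  map_mul' a b := by
    ext
    · simp
    · simp
      ring
  map_zero' := by
    ext <;> simp
  map_add' a b := by
    ext <;> simp

theorem eval_eps {R : Type} [CommRing R] (p : Polynomial R) :
    (p.eval₂ (TrivSqZeroExt.inlHom R R) DualNumber.eps).snd = p.coeff 1 := by
  induction p using Polynomial.induction_on' with
  | add p q hp hq => simp [Polynomial.eval₂_add, hp, hq]
  | monomial n a =>
    rw [Polynomial.eval₂_monomial, Polynomial.coeff_monomial]
    rcases n with _ | n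
    · simp
    · rcases n with _ | n
      · simp [TrivSqZeroExt.snd_mul]
      · have h : (DualNumber.eps : DualNumber R) ^ (n + 1 + 1) = 0 := by
          rw [pow_succ, pow_succ, mul_assoc, DualNumber.eps_mul_eps, mul_zero]
        rw [h]
        simp

theorem eval_eps_fst {R : Type} [CommRing R] (p : Polynomial R) :
    (p.eval₂ (TrivSqZeroExt.inlHom R R) DualNumber.eps).fst = p.coeff 0 := by
  induction p using Polynomial.induction_on' with
  | add p q hp hq => simp [Polynomial.eval₂_add, hp, hq]
  | monomial n a =>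
    rw [Polynomial.eval₂_monomial, Polynomial.coeff_monomial]
    rcases n with _ | n
    · simp
    · rw [pow_succ]
      simp [TrivSqZeroExt.fst_mul]

/-- `(t - t₀)^k` divides the derivative of the determinant -/
theorem dvd_derivative {F : Type} [Field F] [CharZero F] {r : ℕ}
    (B 𝔻 : Matrix (Fin r) (Fin r) (Polynomial F)) (t₀ : F) (k : ℕ)
    (h : ∀ n : ℕ, (X - C t₀) ^ k ∣
      (B + (n : Polynomial F) • (B.map Polynomial.derivative - 𝔻 * B)).det) :
    (X - C t₀) ^ k ∣ derivative B.det := by
  set Cm : Matrix (Fin r) (Fin r) (Polynomial F) := B.map Polynomial.derivative - 𝔻 * B with hCm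
  set inl : Polynomial F →+* DualNumber (Polynomial F) := TrivSqZeroExt.inlHom (Polynomial F) (Polynomial F)
    with hinl
  -- the polynomial `det (B + Z C)`
  set p : Polynomial (Polynomial F) := (B.map C + (X : Polynomial (Polynomial F)) • Cm.map C).det with hp
  have hpe : ∀ n : ℕ, p.eval (n : Polynomial F) = (B + (n : Polynomial F) • Cm).det := by
    intro n
    rw [hp, ← Polynomial.coe_evalRingHom, RingHom.map_det]
    congr 1
    refine Matrix.ext fun i j => ?_
    simp
    exact mul_comm _ _
  have hp1 : (X - C t₀) ^ k ∣ p.coeff 1 := coeff_dvd t₀ k p (fun n => by rw [hpe]; exact h n) 1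
  have hp0 : (X - C t₀) ^ k ∣ p.coeff 0 := coeff_dvd t₀ k p (fun n => by rw [hpe]; exact h n) 0
  have hpd : p.eval₂ inl DualNumber.eps = (B.map inl + (DualNumber.eps : DualNumber (Polynomial F)) • Cm.map inl).det := by
    rw [hp, ← Polynomial.coe_eval₂RingHom, RingHom.map_det]
    congr 1
    refine Matrix.ext fun i j => ?_
    simp [Polynomial.eval₂_add, Polynomial.eval₂_mul]
    exact mul_comm _ _
  -- `φ (det B)`
  have hphi : phi F B.det = (1 + (DualNumber.eps : DualNumber (Polynomial F)) • 𝔻.map inl).det *
      (B.map inl + (DualNumber.eps : DualNumber (Polynomial F)) • Cm.map inl).det := by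
    rw [RingHom.map_det, ← Matrix.det_mul]
    congr 1
    have he : (B.map inl + (DualNumber.eps : DualNumber (Polynomial F)) • Cm.map inl) +
        ((DualNumber.eps : DualNumber (Polynomial F)) • 𝔻.map inl) * B.map inl =
        (1 + (DualNumber.eps : DualNumber (Polynomial F)) • 𝔻.map inl) *
      (B.map inl + (DualNumber.eps : DualNumber (Polynomial F)) • Cm.map inl) := by
      rw [add_mul, one_mul, mul_add]
      have hz : ((DualNumber.eps : DualNumber (Polynomial F)) • 𝔻.map inl) *
          ((DualNumber.eps : DualNumber (Polynomial F)) • Cm.map inl) = 0 := by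
        rw [Matrix.smul_mul, Matrix.mul_smul, smul_smul, DualNumber.eps_mul_eps, zero_smul]
      rw [hz, add_zero]
    rw [← he]
    have h𝔻B : 𝔻.map inl * B.map inl = (𝔻 * B).map inl := (Matrix.map_mul).symm
    rw [Matrix.smul_mul, h𝔻B, add_assoc, ← smul_add]
    have hs : Cm.map inl + (𝔻 * B).map inl = (B.map Polynomial.derivative).map inl := by
      refine Matrix.ext fun i j => ?_
      simp only [Matrix.add_apply, Matrix.map_apply, hCm, Matrix.sub_apply, map_sub]
      ring
    rw [hs]
    refine Matrix.ext fun i j => ?_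
    ext
    · simp [phi, hinl]
    · simp [phi, hinl]
  have hsnd : derivative B.det = (phi F B.det).snd := by simp [phi]
  rw [hsnd, hphi, ← hpd, TrivSqZeroExt.snd_mul, hinl, eval_eps, eval_eps_fst]
  refine dvd_add ?_ ?_
  · rw [smul_eq_mul]
    exact hp1.mul_left _
  · rw [op_smul_eq_smul, smul_eq_mul]
    exact hp0.mul_right _

theorem t_DT : Pool.Agent.U337.EM.S_DT := by
  intro F _ _ r 𝓑 𝔻 hB B₁ hB₁ hdet t₀
  by_contra hno
  push Not at hno
  classical
  have hex : ∃ k : ℕ, ∃ B ∈ 𝓑, B.det ≠ 0 ∧ B.det.rootMultiplicity t₀ = k := ⟨_, B₁, hB₁, hdet, rfl⟩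
  obtain ⟨B, hBm, hBd, hBk⟩ := Nat.find_spec hex
  set k := Nat.find hex with hk
  have hdiv : ∀ B' ∈ 𝓑, (X - C t₀) ^ k ∣ B'.det := by
    intro B' hB'
    by_cases h0 : B'.det = 0
    · rw [h0]; exact dvd_zero _
    · rw [← Polynomial.le_rootMultiplicity_iff h0]
      exact Nat.find_min' hex ⟨B', hB', h0, rfl⟩
  have hder : (X - C t₀) ^ k ∣ derivative B.det := by
    apply dvd_derivative B 𝔻 t₀ k
    intro n
    exact hdiv _ (𝓑.add_mem hBm (𝓑.smul_mem _ (hB B hBm)))
  have hroot : B.det.IsRoot t₀ := hno B hBm
  have hkpos : 0 < B.det.rootMultiplicity t₀ := (Polynomial.rootMultiplicity_pos hBd).2 hroot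
  have hdne : derivative B.det ≠ 0 := by
    intro h0
    have hc := Polynomial.eq_C_of_derivative_eq_zero h0
    apply hBd
    have : B.det.eval t₀ = 0 := hroot
    rw [hc] at this ⊢
    simpa using this
  have h1 : k ≤ (derivative B.det).rootMultiplicity t₀ :=
    (Polynomial.le_rootMultiplicity_iff hdne).2 hder
  rw [Polynomial.derivative_rootMultiplicity_of_root hroot, hBk] at h1
  omega

end Pool.Agent.U451.EM
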